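import Pool.Agent.helper81.DI.Final

/-!
# Dade's conjectures: the ordinary conjecture implies the invariant conjecture for cyclic quotients

For a prime `p` and a group `E₀` the following are equivalent: the ordinary conjecture for all finite
sections of `E₀`; the invariant conjecture for all extensions `1 → G → E → A → 1` with `A` cyclic and
`E` a finite section of `E₀`; for all extensions `1 → G → E → A → 1` with `E` a finite section of `E₀`
(any `A`) and every cyclic subgroup `U` of `A`, the sum over all `V ≥ U` of the alternating sums is `0`.

Sketch of the proof (ordinary implies invariant), by induction on `n = |A|`, for a block `B` (of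
`χ`) which is stable under `E`, and for `d > v_p(n)`. For a subgroup `N` of `E` let `g(N)` be `|N|` times
the number of irreducible characters of `N` of defect `d` whose central character is congruent to that
of `χ` at the sums of the `E`-classes inside `G`.

* The sum `∑ (-1)^|C| g(N_E(C))` over all chains of `p`-subgroups of `E` which start with `1` is `0`: if
  `O_p(E) ≠ 1` by toggling `O_p(E)`, otherwise it is the sum over the radical chains (cancellation of
  Knörr and Robinson), every character of `N_E(C)` induces to a block of `E`, and the ordinary
  conjecture for `E` applies; blocks of defect zero do not contribute since `d > 0`.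
* Toggling `P ∩ G` for the first term `P` which is not in `G` leaves the chains in `G` and the chains
  with a first nontrivial term `Q`, `Q ∩ G = 1`. For these `N_E(Q) = C_E(Q)`, and they are counted by
  sums over the chains of `C_G(Q)`. By Clifford theory these sums are combinations of alternating sums
  for the extension of `C_G(Q)` by `C_E(Q) / (Q C_G(Q))`, which is cyclic of order `< n`; they
  vanish by induction, or because the block has defect zero.
* So the sum over the chains in `G` is `0`. By Clifford theory for cyclic quotients it is `|G|` times
  `∑_U |U|² a_U(d - v_p|U|)`, where `a_U` is the alternating sum of the conjecture.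
* By induction `∑_{V ≥ U} a_V(e) = 0` for proper subgroups `U`. Let `e₀ > 0` be the largest `e` with
  `a_A(e) ≠ 0`. The relation for `d = e₀ + v_p(n)` says that `a_A(e₀)` times the number of pairs
  `(x, y)` which generate `A` together with its Sylow `p`-subgroup is `0`.
-/

set_option autoImplicit false

open Pool.Agent.helper58.DC Pool.Agent.DI

namespace Pool.Agent.Results.MP_baa4d7_al.CyclicQuotients

/-- For a prime `p` (and a maximal ideal `M` over `p` of the ring of algebraic integers) and a group
`E₀`: Dade's ordinary conjecture for all finite sections of `E₀`, the invariant conjecture for all
extensions of a group `G` by a cyclic group which are finite sections of `E₀`, and the vanishing of the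
sums over the stabilisers which contain a given cyclic group, for all extensions which are finite
sections of `E₀`, are equivalent. -/
theorem result (p : ℕ) [Fact p.Prime] (M : Ideal (integralClosure ℤ ℂ)) (hM : M.IsMaximal)
    (hp : (p : integralClosure ℤ ℂ) ∈ M) (E₀ : Type) [Group E₀] :
    (OrdS p M E₀ ↔ CycInvS p M E₀) ∧ (OrdS p M E₀ ↔ CycSumS p M E₀) :=
  FIN.2 p M hM hp E₀

end Pool.Agent.Results.MP_baa4d7_al.CyclicQuotients
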