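import Mathlib
import Pool.Agent.helper81.PJ.All

set_option autoImplicit false

open Finset

/-!
# Sparse subsets of progressions and arbitrary sets

Power saving in the double character sum over `A × B` for a COMPLETELY arbitrary set `B` and an arbitrary, polynomially
sparse subset `A` of an arithmetic progression with `N` terms (`c = 0`) or of a Moebius image of an interval.

`k = 2`, `l = 3`, `V = p^(1/4)`: both sets of size `p^(1/2-c)` for every `N ≤ p^(7/12-η)`.  `k = 2`, `l = 3`, `V = p^(5/21)`,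
`N = p^(1/2)`: both sets of size `p^(19/42+ε)`.  `k, l → ∞`, `A` dense: `N |B| ≥ p^(1/2+ε)`.

Proof: cells of length `N/V`.  In the cells with many points of `B`: Cauchy-Schwarz in each cell and the shifts
`n -> n - 2 v (b'-b)`, so that only the one point `(n+b)/(b'-b)` remains, whose collisions are nearly diagonal for every
`B`.  For the remaining points of `B`: all pairs, the shifts `n -> n - v u`, points `((n+b)/u, (n+b')/u)`.  The shifts
are exact, with a dyadic maximal function; the moments are bounded by Weil's theorem, proved in Lean.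
-/

namespace Pool.Agent.Results.MP_f6e9a2_nt.SparseSubset

/-- Power saving for double character sums over a sparse subset `A` of a Moebius image of an interval of length `N` and
an arbitrary set `B`. -/
theorem result (k l : ℕ) (hk : 0 < k) (hl : 0 < l) (ε : ℝ) (hε : 0 < ε) :
    ∃ δ : ℝ, 0 < δ ∧ ∃ p₀ : ℕ, ∀ (p : ℕ) [Fact p.Prime], p₀ < p →
      ∀ (A B : Finset (ZMod p)) (a b c d : ZMod p) (N : ℕ) (V : ℝ), a * d - b * c ≠ 0 →
        (∀ z ∈ A, ∃ n : ℕ, n < N ∧ c * (n : ZMod p) + d ≠ 0 ∧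
          z = (a * (n : ZMod p) + b) / (c * (n : ZMod p) + d)) →
        1 ≤ V → V ≤ N → V ^ (2 * k) ≤ p →
        (p : ℝ) ^ (1 / (l : ℝ) + ε) ≤ N → (N : ℝ) ≤ (p : ℝ) ^ (1 - ε) →
        (N : ℝ) ^ 2 * (p : ℝ) ^ ε ≤ V * (A.card : ℝ) ^ 2 →
        (N : ℝ) ^ (2 * k - 1) * (p : ℝ) ^ (1 + ε) ≤ V ^ (k - 1) * ((A.card : ℝ) ^ (2 * k) * B.card) →
        (N : ℝ) ^ (2 * l) * (p : ℝ) ^ ε ≤ (A.card : ℝ) ^ (2 * l) * B.card →
        V * (N : ℝ) ^ (2 * l - 1) * (p : ℝ) ^ (1 + 1 / (l : ℝ) + ε) ≤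
          (A.card : ℝ) ^ (2 * l + 1) * (B.card : ℝ) ^ 2 →
        ∀ χ : MulChar (ZMod p) ℂ, χ ≠ 1 → ∀ β : ZMod p → ℂ, (∀ w, ‖β w‖ ≤ 1) →
          ∑ z ∈ A, ‖∑ w ∈ B, β w * χ (z + w)‖ ≤ (p : ℝ) ^ (-δ) * (A.card * B.card) :=
  Pool.Agent.PJ.p_FING k l hk hl ε hε

end Pool.Agent.Results.MP_f6e9a2_nt.SparseSubset
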